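import Pool.Agent.H32.RK.TargetsA
import Pool.Agent.H32.RK.TargetsE

/-!
# Pairs of quadratic forms over a number field: module CLA (integers in a residue class and a
polydisc)
-/

set_option autoImplicit false

open Finset NumberField Pool.Agent.H32.RQ Pool.Agent.H32.RK

namespace Pool.Agent.H48.RK

theorem cla_im {K : Type} [Field K] [NumberField K] {w : InfinitePlace K} (hw : w.IsReal)
    (x : K) : (w.embedding x).im = 0 := by
  have h1 := InfinitePlace.isReal_iff.1 hw
  have h2 := congrArg (fun φ : K →+* ℂ => φ x) h1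
  exact Complex.conj_eq_iff_im.1 h2

theorem pf_CLA (K : Type) [Field K] [NumberField K] (hCOV : T_COV K) (hLOW : T_LOW K) :
    T_CLA K := by
  classical
  obtain ⟨C, hC1, hC⟩ := hCOV
  obtain ⟨c, hc, hL⟩ := hLOW
  refine ⟨c / 2 ^ dg K, 2 * C + 2, by positivity, ?_⟩
  intro W L ζ a hW hLW hζ
  have hW0 : (0 : ℝ) < W := by exact_mod_cast hW
  have hWc : (W : ℂ) ≠ 0 := by exact_mod_cast hW0.ne'
  have hLW' : 2 * C + 2 ≤ L / W := by rwa [le_div_iff₀ hW0]
  obtain ⟨y0, hy0⟩ := hC (fun w => (ζ w - w.embedding (a : K)) / W) (by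
    intro w hw
    have h1 := hζ w hw
    have h2 := cla_im hw (a : K)
    have h3 : ((ζ w - w.embedding (a : K)) / (W : ℂ)) =
        (((ζ w).re - (w.embedding (a : K)).re) / W : ℝ) := by
      refine Complex.ext ?_ ?_
      · rw [Complex.div_natCast_re, Complex.sub_re, Complex.ofReal_re]
      · rw [Complex.div_natCast_im, Complex.sub_im, Complex.ofReal_im, h1, h2, sub_zero, zero_div]
    rw [h3, Complex.ofReal_im])
  obtain ⟨S0, hS1, hS2⟩ := hL (L / W - C) (by linarith)
  refine ⟨S0.image fun y => a + W * (y0 + y), ?_, ?_⟩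
  · rw [Finset.card_image_of_injective]
    · refine le_trans ?_ hS2
      rw [div_mul_eq_mul_div, mul_div_assoc, ← div_pow]
      refine mul_le_mul_of_nonneg_left (pow_le_pow_left₀ (by linarith) ?_ _) hc.le
      linarith
    · intro y y' h
      have h1 : (W : 𝓞 K) ≠ 0 := by exact_mod_cast (by omega : W ≠ 0)
      have h2 : (W : 𝓞 K) * (y0 + y) = W * (y0 + y') := add_left_cancel h
      exact add_left_cancel (mul_left_cancel₀ h1 h2)
  · intro x hx
    obtain ⟨y, hy, rfl⟩ := Finset.mem_image.1 hx
    refine ⟨⟨y0 + y, rfl⟩, fun w => ?_⟩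
    have h1 : w.embedding ((a + W * (y0 + y) : 𝓞 K) : K) - ζ w =
        W * ((w.embedding (y0 : K) - (ζ w - w.embedding (a : K)) / W) + w.embedding (y : K)) := by
      push_cast
      rw [map_add, map_mul, map_add, map_natCast]
      field_simp
      ring
    have h2 : ‖w.embedding (y : K)‖ ≤ L / W - C := by
      rw [InfinitePlace.norm_embedding_eq]
      exact hS1 y hy w
    rw [h1, norm_mul, Complex.norm_natCast]
    calc (W : ℝ) * ‖(w.embedding (y0 : K) - (ζ w - w.embedding (a : K)) / W) +
          w.embedding (y : K)‖ ≤ W * (C + (L / W - C)) := by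
          refine mul_le_mul_of_nonneg_left ?_ hW0.le
          exact (norm_add_le _ _).trans (add_le_add (hy0 w) h2)
      _ = L := by
          rw [add_sub_cancel, mul_div_cancel₀ _ hW0.ne']

end Pool.Agent.H48.RK
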