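import Pool.Agent.H92.RK.Targets

/-!
Module RA2 : the ray inequality for complex functions.
-/

open MeasureTheory Set
open scoped ENNReal

namespace Pool.Agent.H48.RK

open Pool.Agent.H92.RK

theorem C1_re {f f' : ℝ → ℂ} (h : C1 f f') :
    C1 (fun r => (f r).re) (fun r => (f' r).re) :=
  ⟨fun x => Complex.reCLM.hasFDerivAt.comp_hasDerivAt x (h.1 x), Complex.continuous_re.comp h.2⟩

theorem C1_im {f f' : ℝ → ℂ} (h : C1 f f') :
    C1 (fun r => (f r).im) (fun r => (f' r).im) :=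
  ⟨fun x => Complex.imCLM.hasFDerivAt.comp_hasDerivAt x (h.1 x), Complex.continuous_im.comp h.2⟩

theorem tsup_re (f : ℝ → ℂ) : tsupport (fun r => (f r).re) ⊆ tsupport f := by
  apply closure_mono
  intro x hx h0
  apply hx
  simp [h0]

theorem tsup_im (f : ℝ → ℂ) : tsupport (fun r => (f r).im) ⊆ tsupport f := by
  apply closure_mono
  intro x hx h0
  apply hx
  simp [h0]

theorem nsq (z : ℂ) : ‖z‖ ^ 2 = z.re ^ 2 + z.im ^ 2 := by
  rw [← Complex.normSq_eq_norm_sq, Complex.normSq_apply]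
  ring

theorem rv_zero {S : Set ℝ} (hS : IsOpen S) (h : rv S = 0) : ∀ r, 0 < r → r ∉ S := by
  intro r hr hrS
  have ho : IsOpen (S ∩ Ioi (0 : ℝ)) := hS.inter isOpen_Ioi
  unfold rv at h
  have hm : Measurable fun r : ℝ => ENNReal.ofReal (2 * r) :=
    (measurable_const.mul measurable_id).ennreal_ofReal
  rw [lintegral_eq_zero_iff hm] at h
  have h2 : ∀ᵐ x ∂(volume.restrict (S ∩ Ioi (0 : ℝ))), x ∉ S ∩ Ioi (0 : ℝ) := by
    filter_upwards [h] with x hx hxS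
    have h3 : ENNReal.ofReal (2 * x) = 0 := hx
    rw [ENNReal.ofReal_eq_zero] at h3
    have h4 : 0 < x := hxS.2
    linarith
  have h3 : ∀ᵐ x ∂(volume.restrict (S ∩ Ioi (0 : ℝ))), False := by
    filter_upwards [h2, ae_restrict_mem ho.measurableSet] with x hx1 hx2
    exact hx1 hx2
  have h4 : volume (S ∩ Ioi (0 : ℝ)) = 0 := by
    rw [ae_iff] at h3
    simpa using h3
  exact (ho.measure_pos volume ⟨r, hrS, hr⟩).ne' h4

theorem Up_le {τ ρ r : ℝ} (hτ : 1 ≤ τ) (hρ : 0 < ρ) (hr : 0 < r) :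
    Up τ (ENNReal.ofReal ρ) (r ^ 2) ≤
      ENNReal.ofReal (4 * τ * r ^ 2 / (ρ * min (r ^ 2) ρ)) := by
  have hr2 : 0 < r ^ 2 := by positivity
  have hm : 0 < min (r ^ 2) ρ := lt_min hr2 hρ
  unfold Up
  split_ifs with h
  · rw [← ENNReal.ofReal_div_of_pos hρ]
    apply ENNReal.ofReal_le_ofReal
    rw [div_le_div_iff₀ hρ (by positivity)]
    have h1 : min (r ^ 2) ρ ≤ r ^ 2 := min_le_left _ _
    have h2 := mul_le_mul_of_nonneg_left h1 (by positivity : (0 : ℝ) ≤ 4 * τ * ρ)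
    nlinarith [h2]
  · rw [← ENNReal.ofReal_pow hρ.le, ← ENNReal.ofReal_div_of_pos (by positivity)]
    apply ENNReal.ofReal_le_ofReal
    apply div_le_div_of_nonneg_left (by positivity) (by positivity)
    have h1 : min (r ^ 2) ρ ≤ ρ := min_le_right _ _
    nlinarith [mul_le_mul_of_nonneg_left h1 hρ.le]

theorem pf_RA2 (hRA1 : T_RA1) : T_RA2 := by
  intro τ c w₁ hB S f f' hS hf h0 hR hs
  have hτ := hB.one_le
  by_cases hz : rv S = 0
  · have hf0 : ∀ r ∈ Ioi (0 : ℝ), f r = 0 := by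
      intro r hr
      by_contra hne
      exact rv_zero hS hz r hr (hs (subset_tsupport f hne))
    refine le_trans (le_of_eq ?_) zero_le
    rw [setLIntegral_congr_fun (g := fun _ => (0 : ℝ≥0∞)) measurableSet_Ioi]
    · simp
    · intro r hr
      simp [hf0 r hr]
  by_cases ht : rv S = ⊤
  · refine le_trans (le_of_eq ?_) zero_le
    rw [ht]
    have : ∀ x, Up τ ⊤ x = 0 := by
      intro x
      unfold Up
      split_ifs
      · simp
      · simp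
    simp [this]
  set ρ := (rv S).toReal with hρd
  have hρ : 0 < ρ := ENNReal.toReal_pos hz ht
  have hρe : rv S = ENNReal.ofReal ρ := (ENNReal.ofReal_toReal ht).symm
  have hRre : ∃ R, ∀ r, R ≤ r → (f r).re = 0 := by
    obtain ⟨R, hR⟩ := hR
    exact ⟨R, fun r hr => by simp [hR r hr]⟩
  have hRim : ∃ R, ∀ r, R ≤ r → (f r).im = 0 := by
    obtain ⟨R, hR⟩ := hR
    exact ⟨R, fun r hr => by simp [hR r hr]⟩
  obtain ⟨a1, a2, a3⟩ := hRA1 τ c w₁ hB S ρ (fun r => (f r).re) (fun r => (f' r).re) hS hρ hρe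
    (C1_re hf) (by simp [h0]) hRre ((tsup_re f).trans hs)
  obtain ⟨b1, b2, b3⟩ := hRA1 τ c w₁ hB S ρ (fun r => (f r).im) (fun r => (f' r).im) hS hρ hρe
    (C1_im hf) (by simp [h0]) hRim ((tsup_im f).trans hs)
  have e1 : ∀ r, (‖f' r‖ ^ 2 + ‖f r‖ ^ 2 / r ^ 2) * r =
      ((f' r).re ^ 2 + (f r).re ^ 2 / r ^ 2) * r + ((f' r).im ^ 2 + (f r).im ^ 2 / r ^ 2) * r := by
    intro r
    rw [nsq, nsq]
    ring
  have e2 : ∀ r, 4 * τ * r ^ 2 / (ρ * min (r ^ 2) ρ) * ‖f r‖ ^ 2 * r =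
      4 * τ * r ^ 2 / (ρ * min (r ^ 2) ρ) * (f r).re ^ 2 * r +
        4 * τ * r ^ 2 / (ρ * min (r ^ 2) ρ) * (f r).im ^ 2 * r := by
    intro r
    rw [nsq]
    ring
  have i1 : IntegrableOn (fun r => (‖f' r‖ ^ 2 + ‖f r‖ ^ 2 / r ^ 2) * r) (Ioi 0) := by
    simp_rw [e1]
    exact a1.add b1
  have i2 : IntegrableOn (fun r => 4 * τ * r ^ 2 / (ρ * min (r ^ 2) ρ) * ‖f r‖ ^ 2 * r)
      (Ioi 0) := by
    simp_rw [e2]
    exact a2.add b2
  have key : ∫ r in Ioi (0 : ℝ), 4 * τ * r ^ 2 / (ρ * min (r ^ 2) ρ) * ‖f r‖ ^ 2 * r ≤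
      ∫ r in Ioi (0 : ℝ), (‖f' r‖ ^ 2 + ‖f r‖ ^ 2 / r ^ 2) * r := by
    simp_rw [e1, e2]
    rw [integral_add a2 b2, integral_add a1 b1]
    exact add_le_add a3 b3
  have n1 : 0 ≤ᵐ[volume.restrict (Ioi (0 : ℝ))]
      fun r => (‖f' r‖ ^ 2 + ‖f r‖ ^ 2 / r ^ 2) * r := by
    filter_upwards [ae_restrict_mem measurableSet_Ioi] with r hr
    have hr' : (0 : ℝ) < r := hr
    show (0 : ℝ) ≤ _
    positivity
  have n2 : 0 ≤ᵐ[volume.restrict (Ioi (0 : ℝ))]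
      fun r => 4 * τ * r ^ 2 / (ρ * min (r ^ 2) ρ) * ‖f r‖ ^ 2 * r := by
    filter_upwards [ae_restrict_mem measurableSet_Ioi] with r hr
    have hr' : (0 : ℝ) < r := hr
    have hm : 0 < min (r ^ 2) ρ := lt_min (by positivity) hρ
    show (0 : ℝ) ≤ _
    positivity
  rw [hρe]
  calc ∫⁻ r in Ioi (0 : ℝ), Up τ (ENNReal.ofReal ρ) (r ^ 2) * ENNReal.ofReal (‖f r‖ ^ 2 * r)
      ≤ ∫⁻ r in Ioi (0 : ℝ),
          ENNReal.ofReal (4 * τ * r ^ 2 / (ρ * min (r ^ 2) ρ) * ‖f r‖ ^ 2 * r) := by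
        apply setLIntegral_mono' measurableSet_Ioi
        intro r hr
        have hr' : (0 : ℝ) < r := hr
        have hm : 0 < min (r ^ 2) ρ := lt_min (by positivity) hρ
        rw [mul_assoc (4 * τ * r ^ 2 / (ρ * min (r ^ 2) ρ)), ENNReal.ofReal_mul
          (p := 4 * τ * r ^ 2 / (ρ * min (r ^ 2) ρ)) (by positivity)]
        exact mul_le_mul_left (Up_le hτ hρ hr') _
    _ = ENNReal.ofReal (∫ r in Ioi (0 : ℝ),
          4 * τ * r ^ 2 / (ρ * min (r ^ 2) ρ) * ‖f r‖ ^ 2 * r) :=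
        (ofReal_integral_eq_lintegral_ofReal i2 n2).symm
    _ ≤ ENNReal.ofReal (∫ r in Ioi (0 : ℝ), (‖f' r‖ ^ 2 + ‖f r‖ ^ 2 / r ^ 2) * r) :=
        ENNReal.ofReal_le_ofReal key
    _ = ∫⁻ r in Ioi (0 : ℝ), ENNReal.ofReal ((‖f' r‖ ^ 2 + ‖f r‖ ^ 2 / r ^ 2) * r) :=
        ofReal_integral_eq_lintegral_ofReal i1 n1

end Pool.Agent.H48.RK
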